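import Mathlib
import Pool.Agent.Helper55.JS.Walks

/-!
# JS-9: the greedy choice of the short walks
-/

set_option autoImplicit false

namespace Pool.Agent.Helper55.JS

open Finset

namespace P9

theorem greedy_aux {V α : Type} [DecidableEq V] {t m : ℕ} (A : Fin t → Set α)
    (inn : α → Finset V) (hm : ∀ a, ∀ x ∈ A a, (inn x).card ≤ m)
    (h : ∀ a, ∀ F : Finset V, F.card ≤ t * m → ∃ x ∈ A a, Disjoint (inn x) F) (n : ℕ)
    (hn : n ≤ t) :
    ∃ x : Fin n → α, (∀ a : Fin n, x a ∈ A (Fin.castLE hn a)) ∧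
      ∀ a b, a ≠ b → Disjoint (inn (x a)) (inn (x b)) := by
  induction n with
  | zero => exact ⟨fun a => a.elim0, fun a => a.elim0, fun a => a.elim0⟩
  | succ n ih =>
    obtain ⟨x, hx, hd⟩ := ih (by omega)
    have hc : ((univ : Finset (Fin n)).biUnion fun a => inn (x a)).card ≤ t * m := by
      refine card_biUnion_le.trans ?_
      refine (sum_le_card_nsmul _ _ m fun a _ => hm _ _ (hx a)).trans ?_
      rw [card_univ, Fintype.card_fin, smul_eq_mul]
      exact Nat.mul_le_mul_right _ (by omega)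
    obtain ⟨y, hy, hyd⟩ := h ⟨n, by omega⟩ _ hc
    have hyd' : ∀ a, Disjoint (inn y) (inn (x a)) := fun a =>
      hyd.mono_right (subset_biUnion_of_mem (fun a => inn (x a)) (mem_univ a))
    refine ⟨Fin.snoc (α := fun _ => α) x y, fun a => ?_, fun a b => ?_⟩
    · refine Fin.lastCases ?_ (fun a => ?_) a
      · rw [Fin.snoc_last]
        exact hy
      · rw [Fin.snoc_castSucc]
        exact hx a
    · refine Fin.lastCases ?_ (fun a => ?_) a
      · refine Fin.lastCases (fun hab => absurd rfl hab) (fun b _ => ?_) b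
        rw [Fin.snoc_last, Fin.snoc_castSucc]
        exact hyd' b
      · refine Fin.lastCases (fun _ => ?_) (fun b hab => ?_) b
        · rw [Fin.snoc_last, Fin.snoc_castSucc]
          exact (hyd' a).symm
        · rw [Fin.snoc_castSucc, Fin.snoc_castSucc]
          exact hd a b fun e => hab (by rw [e])

theorem greedy {V α : Type} [DecidableEq V] {t m : ℕ} (A : Fin t → Set α) (inn : α → Finset V)
    (hm : ∀ a, ∀ x ∈ A a, (inn x).card ≤ m)
    (h : ∀ a, ∀ F : Finset V, F.card ≤ t * m → ∃ x ∈ A a, Disjoint (inn x) F) :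
    ∃ x : Fin t → α, (∀ a, x a ∈ A a) ∧ ∀ a b, a ≠ b → Disjoint (inn (x a)) (inn (x b)) := by
  obtain ⟨x, hx, hd⟩ := greedy_aux A inn hm h t le_rfl
  exact ⟨x, hx, hd⟩

end P9

variable {V : Type} [Fintype V] [DecidableEq V] {G : SimpleGraph V}

namespace P9

/-- inner positions -/
def pos (k : ℕ) : Finset (Fin (k + 1)) := univ.filter fun i => i ≠ 0 ∧ i ≠ Fin.last k

omit [Fintype V] [DecidableEq V] in
theorem card_pos (k : ℕ) : (pos k).card ≤ k := by
  have h1 : pos k ⊆ univ.erase (0 : Fin (k + 1)) := by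
    intro i hi
    rw [pos, mem_filter] at hi
    rw [mem_erase]
    exact ⟨hi.2.1, mem_univ _⟩
  have h2 := card_le_card h1
  rw [card_erase_of_mem (mem_univ _), card_univ, Fintype.card_fin] at h2
  omega

theorem filter_inst {α : Type*} (s : Finset α) (P : α → Prop)
    (i1 i2 : DecidablePred P) :
    (@Finset.filter α P i1 s).card = (@Finset.filter α P i2 s).card := by
  have h : @Finset.filter α P i1 s = @Finset.filter α P i2 s := by
    apply Finset.ext
    intro a
    constructor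
    · intro ha
      exact (@Finset.mem_filter α P i2 s a).2 ((@Finset.mem_filter α P i1 s a).1 ha)
    · intro ha
      exact (@Finset.mem_filter α P i1 s a).2 ((@Finset.mem_filter α P i2 s a).1 ha)
  rw [h]

omit [DecidableEq V] in
theorem bw_eq (k : ℕ) (x y : V)
    (i1 : DecidablePred fun p : Fin (k + 1) → V => ¬ Function.Injective p) :
    bw G k x y = ((@Finset.filter _ (fun p => ¬ Function.Injective p) i1 (wk G k x y)).card : ℝ) := by
  unfold bw
  exact congrArg (fun n : ℕ => (n : ℝ)) (filter_inst _ _ _ _)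

theorem exists_walk {k : ℕ} {δ : ℝ} {w u : V} (hs : Spread G k δ w u) (E : Finset V)
    (hδ : 0 ≤ δ) (hE : (k : ℝ) * (E.card : ℝ) * δ ≤ 1 / 4) :
    ∃ p ∈ wk G k w u, Function.Injective p ∧ ∀ i ∈ pos k, p i ∉ E := by
  classical
  by_contra hcon
  push Not at hcon
  have hsub : wk G k w u ⊆ ((wk G k w u).filter fun p => ¬ Function.Injective p) ∪
      ((pos k) ×ˢ E).biUnion fun q => (wk G k w u).filter fun p => p q.1 = q.2 := by
    intro p hp
    rw [mem_union]
    by_cases hi : Function.Injective p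
    · right
      obtain ⟨i, hi1, hi2⟩ := hcon p hp hi
      rw [mem_biUnion]
      exact ⟨(i, p i), mem_product.2 ⟨hi1, hi2⟩, mem_filter.2 ⟨hp, rfl⟩⟩
    · left
      exact mem_filter.2 ⟨hp, hi⟩
  have h1 : ((wk G k w u).card : ℝ) ≤ bw G k w u +
      ∑ q ∈ (pos k) ×ˢ E, (((wk G k w u).filter fun p => p q.1 = q.2).card : ℝ) := by
    have h2 := (card_le_card hsub).trans (card_union_le _ _)
    have h3 := h2.trans (Nat.add_le_add_left card_biUnion_le _)
    rw [bw_eq (G := G) k w u _]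
    exact_mod_cast h3
  have h5 : ∑ q ∈ (pos k) ×ˢ E, (((wk G k w u).filter fun p => p q.1 = q.2).card : ℝ) ≤
      ∑ _q ∈ (pos k) ×ˢ E, δ * W G k w u := by
    refine sum_le_sum fun q hq => ?_
    rw [mem_product, pos, mem_filter] at hq
    obtain ⟨⟨_, hq1, hq2⟩, _⟩ := hq
    have hq3 : 0 < (q.1 : ℕ) := Nat.pos_of_ne_zero fun h => hq1 (Fin.ext h)
    have hq4 : (q.1 : ℕ) < k := by
      have := q.1.2
      have : (q.1 : ℕ) ≠ k := fun h => hq2 (Fin.ext h)
      omega
    have h6 := card_wk_one (G := G) hq4.le w u q.2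
    have h7 := hs.le q.1 q.2 hq3 hq4
    exact h6.trans h7
  rw [sum_const, nsmul_eq_mul, card_product, Nat.cast_mul] at h5
  have h8 : ((pos k).card : ℝ) * (E.card : ℝ) * (δ * W G k w u) ≤
      (k : ℝ) * (E.card : ℝ) * δ * W G k w u := by
    have : ((pos k).card : ℝ) ≤ k := by exact_mod_cast card_pos k
    have h9 : 0 ≤ (E.card : ℝ) * (δ * W G k w u) :=
      mul_nonneg (Nat.cast_nonneg _) (mul_nonneg hδ hs.pos.le)
    nlinarith
  have h10 : (k : ℝ) * (E.card : ℝ) * δ * W G k w u ≤ 1 / 4 * W G k w u :=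
    mul_le_mul_of_nonneg_right hE hs.pos.le
  rw [card_wk] at h1
  have h11 := hs.inj
  have h12 := hs.pos
  linarith

end P9

/-- JS-9 -/
theorem choose_R {k t : ℕ} {δ : ℝ} {w : V} (U : Fin t → V) (hs : ∀ a, Spread G k δ w (U a))
    (F : Finset V) (hδ : 0 ≤ δ) (hF : (k : ℝ) * ((F.card : ℝ) + t * k) * δ ≤ 1 / 4) :
    ∃ R : Fin t → (Fin (k + 1) → V),
      (∀ a, R a ∈ wk G k w (U a) ∧ Function.Injective (R a) ∧
        ∀ i, i ≠ 0 → i ≠ Fin.last k → R a i ∉ F) ∧
      ∀ a b, a ≠ b → ∀ i i' : Fin (k + 1), i ≠ 0 → i ≠ Fin.last k → i' ≠ 0 → i' ≠ Fin.last k →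
        R a i ≠ R b i' := by
  classical
  have key : ∀ a, ∀ F' : Finset V, F'.card ≤ t * k →
      ∃ p ∈ {p : Fin (k + 1) → V | p ∈ wk G k w (U a) ∧ Function.Injective p ∧
        ∀ i ∈ P9.pos k, p i ∉ F}, Disjoint ((P9.pos k).image p) F' := by
    intro a F' hF'
    obtain ⟨p, hp1, hp2, hp3⟩ := P9.exists_walk (hs a) (F ∪ F') hδ (by
      refine le_trans ?_ hF
      refine mul_le_mul_of_nonneg_right (mul_le_mul_of_nonneg_left ?_ (Nat.cast_nonneg _)) hδ
      have h1 : (F ∪ F').card ≤ F.card + t * k :=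
        (card_union_le _ _).trans (Nat.add_le_add_left hF' _)
      exact_mod_cast h1)
    refine ⟨p, ⟨hp1, hp2, fun i hi h => hp3 i hi (mem_union_left _ h)⟩, ?_⟩
    rw [Finset.disjoint_left]
    intro v hv hv'
    rw [mem_image] at hv
    obtain ⟨i, hi, rfl⟩ := hv
    exact hp3 i hi (mem_union_right _ hv')
  obtain ⟨R, hR, hd⟩ := P9.greedy (V := V) (α := Fin (k + 1) → V) (t := t) (m := k)
    (fun a => {p | p ∈ wk G k w (U a) ∧ Function.Injective p ∧ ∀ i ∈ P9.pos k, p i ∉ F})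
    (fun p => (P9.pos k).image p) (fun a p _ => card_image_le.trans (P9.card_pos k)) key
  refine ⟨R, fun a => ⟨(hR a).1, (hR a).2.1, fun i h1 h2 =>
    (hR a).2.2 i (mem_filter.2 ⟨mem_univ _, h1, h2⟩)⟩, ?_⟩
  intro a b hab i i' h1 h2 h3 h4 he
  have h5 := hd a b hab
  rw [Finset.disjoint_left] at h5
  refine h5 (mem_image_of_mem (R a) (mem_filter.2 ⟨mem_univ _, h1, h2⟩)) ?_
  rw [he]
  exact mem_image_of_mem (R b) (mem_filter.2 ⟨mem_univ _, h3, h4⟩)

end Pool.Agent.Helper55.JS
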